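import Pool.Agent.W325.KZ.Defs

set_option autoImplicit false

open Finset MeasureTheory ProbabilityTheory Filter Topology

namespace Pool.Agent.W741.KZ

open Pool.Agent.W325.KZ

/-- no zero on `[a,b]` means constant sign -/
lemma pos_of_ne {f : ℝ → ℝ} (hf : Continuous f) {a b : ℝ}
    (h0 : ∀ x ∈ Set.uIcc a b, f x ≠ 0) (ha : 0 < f a) : 0 < f b := by
  by_contra hb
  push Not at hb
  have := intermediate_value_uIcc (f := f) (a := a) (b := b) hf.continuousOn
  have h1 : (0 : ℝ) ∈ Set.uIcc (f a) (f b) := by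
    rw [Set.mem_uIcc]; right; exact ⟨hb, ha.le⟩
  obtain ⟨x, hx, hx0⟩ := this h1
  exact h0 x hx hx0

lemma key {f : ℝ → ℝ} (hf : Continuous f) {c z d : ℝ} (hcz : c < z) (hzd : z < d)
    (hc0 : ∀ x, c ≤ x → x < z → f x ≠ 0) (hd0 : ∀ x, z < x → x ≤ d → f x ≠ 0)
    (hz : f z = 0) (hdz : deriv f z ≠ 0) (h1 : 0 < f c) (h2 : 0 < f d) : False := by
  apply hdz
  apply IsLocalMin.deriv_eq_zero
  filter_upwards [Ioo_mem_nhds hcz hzd] with x hx
  rw [hz]
  rcases lt_trichotomy x z with h | h | h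
  · refine (pos_of_ne hf (a := c) (b := x) ?_ h1).le
    intro y hy
    rw [Set.uIcc_of_le hx.1.le] at hy
    exact hc0 y hy.1 (lt_of_le_of_lt hy.2 h)
  · rw [h, hz]
  · refine (pos_of_ne hf (a := d) (b := x) ?_ h2).le
    intro y hy
    rw [Set.uIcc_of_ge hx.2.le] at hy
    exact hd0 y (lt_of_lt_of_le h hy.1) hy.2

lemma alt {f : ℝ → ℝ} (hf : Continuous f) {c z d : ℝ} (hcz : c < z) (hzd : z < d)
    (hc0 : ∀ x, c ≤ x → x < z → f x ≠ 0) (hd0 : ∀ x, z < x → x ≤ d → f x ≠ 0)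
    (hz : f z = 0) (hdz : deriv f z ≠ 0) : (0 < f c ∧ f d < 0) ∨ (f c < 0 ∧ 0 < f d) := by
  have h1 := hc0 c le_rfl hcz
  have h2 := hd0 d hzd le_rfl
  rcases lt_or_gt_of_ne h1 with h1 | h1 <;> rcases lt_or_gt_of_ne h2 with h2 | h2
  · exfalso
    refine key (f := fun x => - f x) hf.neg hcz hzd ?_ ?_ ?_ ?_ ?_ ?_
    · intro x hx hx'; simpa using hc0 x hx hx'
    · intro x hx hx'; simpa using hd0 x hx hx'
    · simpa using hz
    · rw [deriv.fun_neg]; simpa using hdz
    · simpa using h1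
    · simpa using h2
  · right; exact ⟨h1, h2⟩
  · left; exact ⟨h1, h2⟩
  · exact (key hf hcz hzd hc0 hd0 hz hdz h1 h2).elim

theorem stab : S_STAB := by
  intro f g α β k hαβ hf hg hlt hZ
  obtain ⟨S, hSk, hS⟩ := hZ
  have hfc : Continuous f := hf.continuous
  have hfd : Differentiable ℝ f := hf.differentiable (by norm_num)
  have hnz : ∀ x ∈ Set.Icc α β, f x = 0 → deriv f x ≠ 0 := by
    intro x hx h0 h1
    have := hlt x hx h1
    rw [h0, abs_zero] at this
    exact absurd this (not_lt.mpr (abs_nonneg _))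
  have hcomp : IsCompact (Set.Icc α β ∩ f ⁻¹' {0}) :=
    isCompact_Icc.inter_right (isClosed_singleton.preimage hfc)
  have hfin : (Set.Icc α β ∩ f ⁻¹' {0}).Finite := by
    by_contra hinf
    obtain ⟨x, hx, hacc⟩ := Set.Infinite.exists_accPt_of_subset_isCompact hinf hcomp subset_rfl
    rw [accPt_iff_frequently] at hacc
    have h1 : ∀ᶠ y in 𝓝[≠] x, f y ≠ 0 :=
      (hfd x).hasDerivAt.eventually_ne (hnz x hx.1 hx.2)
    rw [eventually_nhdsWithin_iff] at h1
    obtain ⟨y, hy, hy'⟩ := (hacc.and_eventually h1).exists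
    exact hy' hy.1 hy.2.2
  obtain ⟨Z, hZ⟩ : ∃ Z : Finset ℝ, ∀ x, x ∈ Z ↔ x ∈ Set.Icc α β ∧ f x = 0 :=
    ⟨hfin.toFinset, fun x => by simp [Set.Finite.mem_toFinset]⟩
  have hSZ : S ⊆ Z := fun x hx => (hZ x).2 (hS x hx)
  have hkZ : k ≤ Z.card := hSk.trans (Finset.card_le_card hSZ)
  obtain ⟨N, hN⟩ : ∃ N, Z.card = N := ⟨_, rfl⟩
  rw [hN] at hkZ
  have hex : ∃ z : ℕ → ℝ, (∀ i j, i < j → j < N → z i < z j) ∧ (∀ i < N, z i ∈ Z) ∧
      (∀ x ∈ Z, ∃ i < N, z i = x) := by
    refine ⟨fun i => if h : i < N then Z.orderEmbOfFin hN ⟨i, h⟩ else 0, ?_, ?_, ?_⟩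
    · intro i j hij hj
      have hi : i < N := hij.trans hj
      simp only [hi, hj, dif_pos]
      exact (Z.orderEmbOfFin hN).strictMono (by simpa using hij)
    · intro i hi
      simp only [hi, dif_pos]
      exact Finset.orderEmbOfFin_mem Z hN _
    · intro x hx
      have : x ∈ Set.range (Z.orderEmbOfFin hN) := by
        rw [Finset.range_orderEmbOfFin]; exact hx
      obtain ⟨i, hi⟩ := this
      exact ⟨i.1, i.2, by simp only [i.2, dif_pos]; exact hi⟩
  obtain ⟨z, hzlt, hzZ, hzs⟩ := hex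
  -- no zeros between consecutive ones
  have hgap : ∀ i, i + 1 < N → ∀ x, z i < x → x < z (i + 1) → f x ≠ 0 := by
    intro i hi x h1 h2 h0
    have hi0 := (hZ _).1 (hzZ i (by omega))
    have hi1 := (hZ _).1 (hzZ (i + 1) hi)
    have hx : x ∈ Z := (hZ x).2 ⟨⟨hi0.1.1.trans h1.le, h2.le.trans hi1.1.2⟩, h0⟩
    obtain ⟨j, hj, rfl⟩ := hzs x hx
    rcases lt_trichotomy j i with h | h | h
    · exact absurd (hzlt j i h (by omega)) (not_lt.mpr h1.le)
    · subst h; exact lt_irrefl _ h1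
    · rcases Nat.lt_or_ge (i + 1) j with h' | h'
      · exact absurd (hzlt (i + 1) j h' hj) (not_lt.mpr h2.le)
      · have : j = i + 1 := by omega
        subst this; exact lt_irrefl _ h2
  have hroll : ∀ i, ∃ c, i + 1 < N → z i < c ∧ c < z (i + 1) ∧ deriv f c = 0 := by
    intro i
    by_cases hi : i + 1 < N
    · obtain ⟨c, hc, hc'⟩ := exists_deriv_eq_zero (f := f) (hzlt i (i + 1) (by omega) hi)
        hfc.continuousOn (by rw [((hZ _).1 (hzZ i (by omega))).2, ((hZ _).1 (hzZ (i + 1) hi)).2])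
      exact ⟨c, fun _ => ⟨hc.1, hc.2, hc'⟩⟩
    · exact ⟨0, fun h => absurd h hi⟩
  choose c hc using hroll
  have hzI : ∀ i, i < N → z i ∈ Set.Icc α β := fun i hi => ((hZ _).1 (hzZ i hi)).1
  have hcI : ∀ i, i + 1 < N → c i ∈ Set.Icc α β := by
    intro i hi
    exact ⟨(hzI i (by omega)).1.trans (hc i hi).1.le, (hc i hi).2.1.le.trans (hzI (i + 1) hi).2⟩
  have hw : ∀ i, ∃ w, i + 2 < N → c i < w ∧ w < c (i + 1) ∧ f w + g w = 0 := by
    intro i
    by_cases hi : i + 2 < N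
    swap
    · exact ⟨0, fun h => absurd h hi⟩
    have h1 := hc i (by omega)
    have h2 := hc (i + 1) (by omega)
    have h3 := hlt _ (hcI i (by omega)) h1.2.2
    have h4 := hlt _ (hcI (i + 1) (by omega)) h2.2.2
    have hcc : c i < c (i + 1) := h1.2.1.trans h2.1
    have hsub : Set.Icc (c i) (c (i + 1)) ⊆ Set.Icc α β :=
      Set.Icc_subset_Icc (hcI i (by omega)).1 (hcI (i + 1) (by omega)).2
    have hcont : ContinuousOn (fun x => f x + g x) (Set.Icc (c i) (c (i + 1))) :=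
      hfc.continuousOn.add (hg.mono hsub)
    have hz1 := (hZ _).1 (hzZ (i + 1) (by omega))
    have hal := alt hfc h1.2.1 h2.1
      (fun x hx hx' => hgap i (by omega) x (lt_of_lt_of_le h1.1 hx) hx')
      (fun x hx hx' => hgap (i + 1) (by omega) x hx (lt_of_le_of_lt hx' h2.2.1))
      hz1.2 (hnz _ hz1.1 hz1.2)
    rw [abs_lt] at h3 h4
    rcases hal with ⟨ha, hb⟩ | ⟨ha, hb⟩
    · rw [abs_of_pos ha] at h3
      rw [abs_of_neg hb] at h4
      obtain ⟨w, hw, hw0⟩ := intermediate_value_Ioo' hcc.le hcont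
        (show (0 : ℝ) ∈ Set.Ioo (f (c (i + 1)) + g (c (i + 1))) (f (c i) + g (c i)) from
          ⟨by linarith [h4.2], by linarith [h3.1]⟩)
      exact ⟨w, fun _ => ⟨hw.1, hw.2, hw0⟩⟩
    · rw [abs_of_neg ha] at h3
      rw [abs_of_pos hb] at h4
      obtain ⟨w, hw, hw0⟩ := intermediate_value_Ioo hcc.le hcont
        (show (0 : ℝ) ∈ Set.Ioo (f (c i) + g (c i)) (f (c (i + 1)) + g (c (i + 1))) from
          ⟨by linarith [h3.2], by linarith [h4.1]⟩)
      exact ⟨w, fun _ => ⟨hw.1, hw.2, hw0⟩⟩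
  choose w hw using hw
  have hwlt : ∀ i j, i < j → j + 2 < N → w i < w j := by
    intro i j hij hj
    induction j, hij using Nat.le_induction with
    | base => exact (hw i (by omega)).2.1.trans (hw (i + 1) hj).1
    | succ m hm ih => exact (ih (by omega)).trans ((hw m (by omega)).2.1.trans (hw (m + 1) hj).1)
  refine ⟨(range (N - 2)).image w, ?_, ?_⟩
  · rw [Finset.card_image_of_injOn, card_range]
    · omega
    · intro i hi j hj hij
      simp only [coe_range, Set.mem_Iio] at hi hj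
      rcases lt_trichotomy i j with h | h | h
      · exact absurd hij (hwlt i j h (by omega)).ne
      · exact h
      · exact absurd hij (hwlt j i h (by omega)).ne'
  · intro x hx
    rw [Finset.mem_image] at hx
    obtain ⟨i, hi, rfl⟩ := hx
    rw [mem_range] at hi
    have h := hw i (by omega)
    exact ⟨⟨(hcI i (by omega)).1.trans h.1.le, h.2.1.le.trans (hcI (i + 1) (by omega)).2⟩, h.2.2⟩

end Pool.Agent.W741.KZ
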